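import Mathlib
import Pool.Agent.V117.CMembed
import Pool.Agent.V117.SymbPow

/-! MP_5c8d7a_al: an admissible weighted tree some power of whose edge ideal is not
Cohen-Macaulay. -/

namespace Pool.Agent.Results.MP_5c8d7a_al.NotCM

open MvPolynomial Pool.Agent.V117 Pool.Agent.V117.CM

/-- The weighted edge ideal, generated by `(uv)^ω(uv)` over the edges `uv` of `G`. -/
noncomputable def wIdeal (K : Type) [Field K] {V : Type} (G : SimpleGraph V) (ω : V → V → ℕ) :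
    Ideal (MvPolynomial V K) :=
  Ideal.span {f | ∃ u v, G.Adj u v ∧ f = (X u * X v) ^ ω u v}

/-- Admissible weighted trees: `x i`, `y i` are the vertices of the perfect matching `x_i y_i`,
every `y_i` is a leaf, and conditions 1 and 2 of the problem hold, with `m_i = ω(x_i y_i)`. -/
structure Admissible {V : Type} (G : SimpleGraph V) (ω : V → V → ℕ) : Prop where
  tree : G.IsTree
  symm : ∀ u v, ω u v = ω v u
  pos : ∀ u v, G.Adj u v → 0 < ω u v
  matching : ∃ (t : ℕ) (x y : Fin t → V), Function.Bijective (Sum.elim x y) ∧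
    (∀ i, G.Adj (x i) (y i)) ∧ (∀ i v, G.Adj (y i) v → v = x i) ∧
    (∀ i j, G.Adj (x i) (x j) →
      2 * ω (x i) (x j) ≤ min (ω (x i) (y i)) (ω (x j) (y j))) ∧
    (∀ i j k, i ≠ k → G.Adj (x i) (x j) → G.Adj (x j) (x k) →
      ω (x i) (x j) ≠ ω (x j) (x k) ∧
      (ω (x i) (x j) < ω (x j) (x k) →
        (ω (x i) (x j) : ℤ) *
          ⌈(ω (x j) (x k) : ℚ) / ((ω (x j) (x k) : ℚ) - (ω (x i) (x j) : ℚ))⌉ ≤
            (ω (x i) (y i) : ℤ) ∧
        (ω (x j) (x k) : ℤ) *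
          (⌈(ω (x j) (x k) : ℚ) / ((ω (x j) (x k) : ℚ) - (ω (x i) (x j) : ℚ))⌉ - 2) ≤
            (ω (x k) (y k) : ℤ)))

/-- The weights: `x_i = i`, `y_i = i + 4`; the path `0 - 1 - 2 - 3` with weights `3, 2, 4` and
whiskers with weights `6, 6, 8, 8`. -/
def w : Fin 8 → Fin 8 → ℕ :=
  ![![0, 3, 0, 0, 6, 0, 0, 0],
    ![3, 0, 2, 0, 0, 6, 0, 0],
    ![0, 2, 0, 4, 0, 0, 8, 0],
    ![0, 0, 4, 0, 0, 0, 0, 8],
    ![6, 0, 0, 0, 0, 0, 0, 0],
    ![0, 6, 0, 0, 0, 0, 0, 0],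
    ![0, 0, 8, 0, 0, 0, 0, 0],
    ![0, 0, 0, 8, 0, 0, 0, 0]]

/-- The whiskered path on eight vertices. -/
def G : SimpleGraph (Fin 8) where
  Adj u v := w u v ≠ 0
  symm := ⟨by decide⟩
  loopless := ⟨by decide⟩

instance : DecidableRel G.Adj := fun u v => inferInstanceAs (Decidable (w u v ≠ 0))

lemma isTree : G.IsTree := by
  rw [SimpleGraph.isTree_iff_connected_and_card]
  constructor
  · have h : ∀ u v : Fin 8, w u v ≠ 0 → G.Reachable u v := fun u v huv =>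
      SimpleGraph.Adj.reachable (G := G) huv
    have h1 : G.Reachable 0 1 := h 0 1 (by decide)
    have h2 : G.Reachable 0 2 := h1.trans (h 1 2 (by decide))
    have h3 : G.Reachable 0 3 := h2.trans (h 2 3 (by decide))
    have h4 : ∀ v : Fin 8, G.Reachable 0 v := by
      intro v
      fin_cases v
      · exact SimpleGraph.Reachable.refl _
      · exact h1
      · exact h2
      · exact h3
      · exact h 0 4 (by decide)
      · exact h1.trans (h 1 5 (by decide))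
      · exact h2.trans (h 2 6 (by decide))
      · exact h3.trans (h 3 7 (by decide))
    exact { preconnected := fun a b => (h4 a).symm.trans (h4 b), nonempty := ⟨0⟩ }
  · rw [Nat.card_eq_fintype_card, Nat.card_eq_fintype_card, ← SimpleGraph.edgeFinset_card]
    decide

lemma adm : Admissible G w where
  tree := isTree
  symm := by decide
  pos := fun u v h => Nat.pos_of_ne_zero h
  matching := by
    refine ⟨4, ![0, 1, 2, 3], ![4, 5, 6, 7], by decide, by decide, by decide, by decide, ?_⟩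
    intro i j k hik h1 h2
    have e1 : ⌈(3 : ℚ) / (3 - 2)⌉ = 3 := by norm_num
    have e2 : ⌈(4 : ℚ) / (4 - 2)⌉ = 2 := by norm_num
    fin_cases i <;> fin_cases j <;> fin_cases k <;>
      first
        | exact absurd rfl hik
        | exact absurd h1 (by decide)
        | exact absurd h2 (by decide)
        | (refine ⟨by decide, fun h => ?_⟩
           first
             | exact absurd h (by decide)
             | (simp [w, e1, e2]))

/-- exponents dominating a product of `n` generators -/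
def ev (n : ℕ) : Set (Fin 8 →₀ ℕ) := {m | ∃ a b c d e f g : ℕ, a + b + c + d + e + f + g = n ∧
  3 * a + 6 * d ≤ m 0 ∧ 3 * a + 2 * b + 6 * e ≤ m 1 ∧ 2 * b + 4 * c + 8 * f ≤ m 2 ∧
  4 * c + 8 * g ≤ m 3 ∧ 6 * d ≤ m 4 ∧ 6 * e ≤ m 5 ∧ 8 * f ≤ m 6 ∧ 8 * g ≤ m 7}

lemma ev_upper (n : ℕ) : IsUpperSet (ev n) := by
  rintro m m' hm ⟨a, b, c, d, e, f, g, h0, h1, h2, h3, h4, h5, h6, h7, h8⟩
  exact ⟨a, b, c, d, e, f, g, h0, h1.trans (hm 0), h2.trans (hm 1), h3.trans (hm 2),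
    h4.trans (hm 3), h5.trans (hm 4), h6.trans (hm 5), h7.trans (hm 6), h8.trans (hm 7)⟩

variable (K : Type) [Field K]

lemma gen_eq (u v : Fin 8) (k : ℕ) : ((X u * X v) ^ k : MvPolynomial (Fin 8) K) =
    monomial (Finsupp.single u k + Finsupp.single v k) 1 := by
  rw [mul_pow, X_pow_eq_monomial, X_pow_eq_monomial, monomial_mul, one_mul]

lemma le_ev_one : wIdeal K G w ≤ upIdeal K (ev 1) := by
  unfold wIdeal
  rw [Ideal.span_le]
  rintro f ⟨u, v, huv, rfl⟩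
  rw [gen_eq]
  refine Ideal.subset_span ⟨_, ?_, rfl⟩
  have huv' : w u v ≠ 0 := huv
  have hcase : ∀ u v : Fin 8, w u v ≠ 0 →
      ((u = 0 ∧ v = 1) ∨ (u = 1 ∧ v = 0)) ∨ ((u = 1 ∧ v = 2) ∨ (u = 2 ∧ v = 1)) ∨
      ((u = 2 ∧ v = 3) ∨ (u = 3 ∧ v = 2)) ∨ ((u = 0 ∧ v = 4) ∨ (u = 4 ∧ v = 0)) ∨
      ((u = 1 ∧ v = 5) ∨ (u = 5 ∧ v = 1)) ∨ ((u = 2 ∧ v = 6) ∨ (u = 6 ∧ v = 2)) ∨
      ((u = 3 ∧ v = 7) ∨ (u = 7 ∧ v = 3)) := by decide
  rcases hcase u v huv' with (⟨rfl, rfl⟩ | ⟨rfl, rfl⟩) | (⟨rfl, rfl⟩ | ⟨rfl, rfl⟩) |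
    (⟨rfl, rfl⟩ | ⟨rfl, rfl⟩) | (⟨rfl, rfl⟩ | ⟨rfl, rfl⟩) | (⟨rfl, rfl⟩ | ⟨rfl, rfl⟩) |
    (⟨rfl, rfl⟩ | ⟨rfl, rfl⟩) | (⟨rfl, rfl⟩ | ⟨rfl, rfl⟩)
  · exact ⟨1, 0, 0, 0, 0, 0, 0, by simp [w]⟩
  · exact ⟨1, 0, 0, 0, 0, 0, 0, by simp [w]⟩
  · exact ⟨0, 1, 0, 0, 0, 0, 0, by simp [w]⟩
  · exact ⟨0, 1, 0, 0, 0, 0, 0, by simp [w]⟩
  · exact ⟨0, 0, 1, 0, 0, 0, 0, by simp [w]⟩
  · exact ⟨0, 0, 1, 0, 0, 0, 0, by simp [w]⟩
  · exact ⟨0, 0, 0, 1, 0, 0, 0, by simp [w]⟩
  · exact ⟨0, 0, 0, 1, 0, 0, 0, by simp [w]⟩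
  · exact ⟨0, 0, 0, 0, 1, 0, 0, by simp [w]⟩
  · exact ⟨0, 0, 0, 0, 1, 0, 0, by simp [w]⟩
  · exact ⟨0, 0, 0, 0, 0, 1, 0, by simp [w]⟩
  · exact ⟨0, 0, 0, 0, 0, 1, 0, by simp [w]⟩
  · exact ⟨0, 0, 0, 0, 0, 0, 1, by simp [w]⟩
  · exact ⟨0, 0, 0, 0, 0, 0, 1, by simp [w]⟩

lemma ev_add {n k : ℕ} {p q : Fin 8 →₀ ℕ} (hp : p ∈ ev n) (hq : q ∈ ev k) :
    p + q ∈ ev (n + k) := by
  obtain ⟨a, b, c, d, e, f, g, h0, h1, h2, h3, h4, h5, h6, h7, h8⟩ := hp
  obtain ⟨a', b', c', d', e', f', g', h0', h1', h2', h3', h4', h5', h6', h7', h8'⟩ := hq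
  refine ⟨a + a', b + b', c + c', d + d', e + e', f + f', g + g', ?_, ?_, ?_, ?_, ?_, ?_, ?_,
    ?_, ?_⟩
  · omega
  all_goals
    rw [Finsupp.add_apply]
    omega

lemma pow_le_ev (n : ℕ) : wIdeal K G w ^ n ≤ upIdeal K (ev n) := by
  induction n with
  | zero =>
    intro f _
    rw [mem_upIdeal (ev_upper 0)]
    intro m _
    exact ⟨0, 0, 0, 0, 0, 0, 0, by simp⟩
  | succ n ih =>
    rw [pow_succ]
    refine (Ideal.mul_mono ih (le_ev_one K)).trans ?_
    unfold upIdeal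
    rw [Ideal.span_mul_span', Ideal.span_le]
    rintro _ ⟨_, ⟨p, hp, rfl⟩, _, ⟨q, hq, rfl⟩, rfl⟩
    show monomial p (1 : K) * monomial q 1 ∈ _
    rw [monomial_mul, one_mul]
    exact Ideal.subset_span ⟨p + q, ev_add hp hq, rfl⟩

/-- the exponent of the witness -/
noncomputable def m0 : Fin 8 →₀ ℕ :=
  Finsupp.single 0 6 + Finsupp.single 1 9 + Finsupp.single 2 8 + Finsupp.single 3 8

lemma m0_notMem : m0 ∉ ev 5 := by
  rintro ⟨a, b, c, d, e, f, g, h0, h1, h2, h3, h4, h5, h6, h7, h8⟩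
  simp [m0] at h1 h2 h3 h4 h5 h6 h7 h8
  omega

/-- the witness `x_1^6 x_2^9 x_3^8 x_4^8` -/
noncomputable def wit : MvPolynomial (Fin 8) K := X 0 ^ 6 * X 1 ^ 9 * X 2 ^ 8 * X 3 ^ 8

lemma wit_notMem : wit K ∉ wIdeal K G w ^ 5 := by
  intro h
  have h1 := pow_le_ev K 5 h
  have h2 : wit K = monomial m0 1 := by
    unfold wit m0
    rw [X_pow_eq_monomial, X_pow_eq_monomial, X_pow_eq_monomial, X_pow_eq_monomial, monomial_mul,
      monomial_mul, monomial_mul]
    simp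
  rw [h2, monomial_mem_upIdeal (ev_upper 5) one_ne_zero] at h1
  exact m0_notMem h1

lemma gen_mem (u v : Fin 8) (h : w u v ≠ 0) : (X u * X v) ^ w u v ∈ wIdeal K G w :=
  Ideal.subset_span ⟨u, v, h, rfl⟩

lemma x_mul_wit : X 0 ^ 3 * wit K ∈ wIdeal K G w ^ 5 := by
  have h1 := gen_mem K 0 1 (by decide)
  have h2 := gen_mem K 2 3 (by decide)
  have h3 := Ideal.mul_mem_mul (Ideal.pow_mem_pow h1 3) (Ideal.pow_mem_pow h2 2)
  rw [← pow_add] at h3
  have e : X 0 ^ 3 * wit K = ((X 0 * X 1) ^ w 0 1) ^ 3 * ((X 2 * X 3) ^ w 2 3) ^ 2 := by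
    show _ = ((X 0 * X 1) ^ 3) ^ 3 * ((X 2 * X 3) ^ 4) ^ 2
    unfold wit
    ring
  rw [e]
  exact h3

lemma y_mul_wit : X 4 ^ 6 * wit K ∈ wIdeal K G w ^ 5 := by
  have h1 := gen_mem K 0 4 (by decide)
  have h2 := gen_mem K 1 2 (by decide)
  have h3 := Ideal.mul_mem_mul (Ideal.pow_mem_pow h1 1) (Ideal.pow_mem_pow h2 4)
  rw [← pow_add] at h3
  have e : X 4 ^ 6 * wit K =
      (X 1 * X 3 ^ 8) * (((X 0 * X 4) ^ w 0 4) ^ 1 * ((X 1 * X 2) ^ w 1 2) ^ 4) := by
    show _ = (X 1 * X 3 ^ 8) * (((X 0 * X 4) ^ 6) ^ 1 * ((X 1 * X 2) ^ 2) ^ 4)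
    unfold wit
    ring
  rw [e]
  exact Ideal.mul_mem_left _ _ h3

lemma mem_varIdeal {C : Finset (Fin 8)} {v : Fin 8} (h : v ∈ C) : X v ∈ varIdeal K C :=
  Ideal.subset_span ⟨v, h, rfl⟩

lemma notMem_varIdeal {C : Finset (Fin 8)} {v : Fin 8} (h : v ∉ C) : X v ∉ varIdeal K C := by
  rw [varIdeal_eq, X, monomial_mem_upIdeal (isUpperSet_wset C 1) one_ne_zero]
  show ¬ (1 ≤ ∑ i ∈ C, (Finsupp.single v 1 : Fin 8 →₀ ℕ) i)
  have : ∑ i ∈ C, (Finsupp.single v 1 : Fin 8 →₀ ℕ) i = 0 := by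
    apply Finset.sum_eq_zero
    intro i hi
    rw [Finsupp.single_apply, if_neg]
    rintro rfl
    exact h hi
  omega

/-- A prime containing the edge ideal and both `x_1` and `y_1` strictly contains a smaller prime
containing the edge ideal. -/
lemma smaller {p : Ideal (MvPolynomial (Fin 8) K)} (hp : p.IsPrime) (hI : wIdeal K G w ≤ p)
    (hx : X 0 ∈ p) : ∃ C : Finset (Fin 8), wIdeal K G w ≤ varIdeal K C ∧
      varIdeal K C ≤ p ∧ X 4 ∉ varIdeal K C := by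
  classical
  let par : Fin 8 → Fin 8 := ![4, 5, 6, 7, 0, 1, 2, 3]
  have hedge : ∀ u v, w u v ≠ 0 → X u ∈ p ∨ X v ∈ p := by
    intro u v huv
    have h1 := hI (gen_mem K u v huv)
    exact hp.mem_or_mem (hp.mem_of_pow_mem _ h1)
  let C : Finset (Fin 8) := Finset.univ.filter (fun v =>
    (v < 4 ∧ X v ∈ p) ∨ (4 ≤ v ∧ X (par v) ∉ p))
  refine ⟨C, ?_, ?_, ?_⟩
  · have hcov : ∀ u v : Fin 8, w u v ≠ 0 → u ∈ C ∨ v ∈ C := by
      intro u v huv
      have hc : ∀ u v : Fin 8, w u v ≠ 0 → (u < 4 ∧ v < 4) ∨ (u < 4 ∧ 4 ≤ v ∧ par v = u) ∨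
          (v < 4 ∧ 4 ≤ u ∧ par u = v) := by
        simp only [par]
        decide
      rcases hc u v huv with ⟨hu, hv⟩ | ⟨hu, hv, hpv⟩ | ⟨hv, hu, hpu⟩
      · rcases hedge u v huv with h | h
        · exact Or.inl (Finset.mem_filter.2 ⟨Finset.mem_univ _, Or.inl ⟨hu, h⟩⟩)
        · exact Or.inr (Finset.mem_filter.2 ⟨Finset.mem_univ _, Or.inl ⟨hv, h⟩⟩)
      · by_cases h : X u ∈ p
        · exact Or.inl (Finset.mem_filter.2 ⟨Finset.mem_univ _, Or.inl ⟨hu, h⟩⟩)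
        · exact Or.inr (Finset.mem_filter.2 ⟨Finset.mem_univ _, Or.inr ⟨hv, by rw [hpv]; exact h⟩⟩)
      · by_cases h : X v ∈ p
        · exact Or.inr (Finset.mem_filter.2 ⟨Finset.mem_univ _, Or.inl ⟨hv, h⟩⟩)
        · exact Or.inl (Finset.mem_filter.2 ⟨Finset.mem_univ _, Or.inr ⟨hu, by rw [hpu]; exact h⟩⟩)
    unfold wIdeal
    rw [Ideal.span_le]
    rintro f ⟨u, v, huv, rfl⟩
    apply Ideal.pow_mem_of_mem _ _ _ (Nat.pos_of_ne_zero huv)
    rcases hcov u v huv with h | h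
    · exact Ideal.mul_mem_right _ _ (mem_varIdeal K h)
    · exact Ideal.mul_mem_left _ _ (mem_varIdeal K h)
  · unfold varIdeal
    rw [Ideal.span_le]
    rintro _ ⟨v, hv, rfl⟩
    rcases (Finset.mem_filter.1 (Finset.mem_coe.1 hv)).2 with ⟨_, h⟩ | ⟨hv4, h⟩
    · exact h
    · have hc : ∀ v : Fin 8, 4 ≤ v → w (par v) v ≠ 0 := by
        simp only [par]
        decide
      exact (hedge _ _ (hc v hv4)).resolve_left h
  · apply notMem_varIdeal
    intro h
    rcases (Finset.mem_filter.1 h).2 with ⟨h4, _⟩ | ⟨_, h⟩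
    · exact absurd h4 (by decide)
    · exact h hx

/-- For every field there is an admissible weighted tree with a power of its weighted edge ideal
(the fifth power) that is not Cohen-Macaulay. -/
theorem result (K : Type) [Field K] : ∃ (G : SimpleGraph (Fin 8)) (ω : Fin 8 → Fin 8 → ℕ),
    Admissible G ω ∧ ¬ IsCM (MvPolynomial (Fin 8) K ⧸ wIdeal K G ω ^ 5) := by
  classical
  refine ⟨G, w, adm, fun hCM => ?_⟩
  set I5 := wIdeal K G w ^ 5 with hI5
  let A := MvPolynomial (Fin 8) K ⧸ I5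
  let u : A := Ideal.Quotient.mk I5 (wit K)
  have hu : u ≠ 0 := by
    intro h
    exact wit_notMem K (Ideal.Quotient.eq_zero_iff_mem.1 h)
  -- a maximal ideal containing the annihilator of `u`
  let ann : Ideal A := Ideal.span {u} |>.annihilator
  have hann : ∀ a : A, a ∈ ann ↔ a * u = 0 := by
    intro a
    rw [Submodule.mem_annihilator_span_singleton]
    rfl
  have hne : ann ≠ ⊤ := by
    intro h
    have h1 : (1 : A) ∈ ann := by rw [h]; trivial
    rw [hann, one_mul] at h1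
    exact hu h1
  obtain ⟨m, hm, hle⟩ := Ideal.exists_le_maximal ann hne
  obtain ⟨P, hJP, hmin⟩ := exists_minimal (hCM m)
    (Ideal.span {algebraMap A (Localization.AtPrime m) (Ideal.Quotient.mk I5 (X 0 ^ 3)),
      algebraMap A (Localization.AtPrime m) (Ideal.Quotient.mk I5 (X 4 ^ 6))})
    (algebraMap A (Localization.AtPrime m) u) (by
      intro h
      rw [IsLocalization.map_eq_zero_iff m.primeCompl] at h
      obtain ⟨s, hs⟩ := h
      exact s.2 (hle ((hann _).2 hs))) (by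
      intro a ha
      rw [Ideal.mem_span_pair] at ha
      obtain ⟨b, c, rfl⟩ := ha
      have h1 : Ideal.Quotient.mk I5 (X 0 ^ 3) * u = 0 := by
        rw [← map_mul]
        exact Ideal.Quotient.eq_zero_iff_mem.2 (x_mul_wit K)
      have h2 : Ideal.Quotient.mk I5 (X 4 ^ 6) * u = 0 := by
        rw [← map_mul]
        exact Ideal.Quotient.eq_zero_iff_mem.2 (y_mul_wit K)
      have h3 : algebraMap A (Localization.AtPrime m) (Ideal.Quotient.mk I5 (X 0 ^ 3)) *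
          algebraMap A (Localization.AtPrime m) u = 0 :=
        (map_mul _ _ _).symm.trans (by rw [h1, map_zero])
      have h4 : algebraMap A (Localization.AtPrime m) (Ideal.Quotient.mk I5 (X 4 ^ 6)) *
          algebraMap A (Localization.AtPrime m) u = 0 :=
        (map_mul _ _ _).symm.trans (by rw [h2, map_zero])
      rw [add_mul, mul_assoc, mul_assoc, h3, h4, mul_zero, mul_zero, add_zero])
  let ψ : MvPolynomial (Fin 8) K →+* Localization.AtPrime m :=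
    (algebraMap A (Localization.AtPrime m)).comp (Ideal.Quotient.mk I5)
  let p := P.asIdeal.comap ψ
  have hp : p.IsPrime := Ideal.comap_isPrime _ _
  have hx : X 0 ∈ p := by
    have h1 : X 0 ^ 3 ∈ p := hJP (Ideal.subset_span (Or.inl rfl))
    exact hp.mem_of_pow_mem _ h1
  have hy : X 4 ∈ p := by
    have h1 : X 4 ^ 6 ∈ p := hJP (Ideal.subset_span (Or.inr rfl))
    exact hp.mem_of_pow_mem _ h1
  have hI5p : I5 ≤ p := by
    intro f hf
    show ψ f ∈ P.asIdeal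
    have : ψ f = 0 := by
      show algebraMap A (Localization.AtPrime m) (Ideal.Quotient.mk I5 f) = 0
      rw [Ideal.Quotient.eq_zero_iff_mem.2 hf, map_zero]
    rw [this]
    exact Ideal.zero_mem _
  have hI : wIdeal K G w ≤ p := by
    intro f hf
    exact hp.mem_of_pow_mem 5 (hI5p (Ideal.pow_mem_pow hf 5))
  obtain ⟨C, hC1, hC2, hC3⟩ := smaller K hp hI hx
  have hQprime : (varIdeal K C).IsPrime := varIdeal_isPrime C
  have hI5C : I5 ≤ varIdeal K C := (Ideal.pow_le_self (by norm_num)).trans hC1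
  let Q1 : Ideal A := (varIdeal K C).map (Ideal.Quotient.mk I5)
  have hker : RingHom.ker (Ideal.Quotient.mk I5) ≤ varIdeal K C := by
    rw [Ideal.mk_ker]
    exact hI5C
  have hQ1 : Q1.IsPrime := Ideal.map_isPrime_of_surjective Ideal.Quotient.mk_surjective hker
  have hQ1le : Q1 ≤ P.asIdeal.comap (algebraMap A (Localization.AtPrime m)) := by
    rw [Ideal.map_le_iff_le_comap]
    exact hC2
  have hPm : P.asIdeal.comap (algebraMap A (Localization.AtPrime m)) ≤ m := by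
    have h1 := IsLocalRing.le_maximalIdeal P.2.ne_top
    have h2 := Ideal.comap_mono (f := algebraMap A (Localization.AtPrime m)) h1
    have h3 : Ideal.comap (algebraMap A (Localization.AtPrime m))
        (IsLocalRing.maximalIdeal (Localization.AtPrime m)) = m :=
      IsLocalization.AtPrime.under_maximalIdeal (Localization.AtPrime m) m
    rwa [h3] at h2
  have hdisj : Disjoint (m.primeCompl : Set A) (Q1 : Set A) := by
    rw [Set.disjoint_left]
    intro a ha ha'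
    exact ha (hPm (hQ1le ha'))
  have hQ2 := IsLocalization.isPrime_of_isPrime_disjoint m.primeCompl (Localization.AtPrime m) Q1
    hQ1 hdisj
  have hcomap := IsLocalization.under_map_of_isPrime_disjoint m.primeCompl
    (Localization.AtPrime m) hQ1 hdisj
  apply hmin ⟨Q1.map (algebraMap A (Localization.AtPrime m)), hQ2⟩
  refine lt_of_le_of_ne ?_ ?_
  · show Q1.map (algebraMap A (Localization.AtPrime m)) ≤ P.asIdeal
    rw [Ideal.map_le_iff_le_comap]
    exact hQ1le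
  · intro h
    have h1 : Ideal.Quotient.mk I5 (X 4) ∈ Q1 := by
      rw [← hcomap]
      show algebraMap A (Localization.AtPrime m) (Ideal.Quotient.mk I5 (X 4)) ∈
        Q1.map (algebraMap A (Localization.AtPrime m))
      have h2 := congrArg PrimeSpectrum.asIdeal h
      have h3 : Q1.map (algebraMap A (Localization.AtPrime m)) = P.asIdeal := h2
      rw [h3]
      exact hy
    have h4 : X 4 ∈ Ideal.comap (Ideal.Quotient.mk I5) Q1 := h1
    rw [Ideal.comap_map_of_surjective _ Ideal.Quotient.mk_surjective, ← RingHom.ker_eq_comap_bot,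
      sup_eq_left.2 hker] at h4
    exact hC3 h4

end Pool.Agent.Results.MP_5c8d7a_al.NotCM
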